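import Pool.Agent.Zk51.SZ.Defs

/-!
# Euler characteristics of long exact sequences
-/

set_option autoImplicit false
set_option linter.unusedSectionVars false

open Module

namespace Pool.Agent.Zk51.SZ

section Sums

lemma sgn_succ (i : ℤ) : sgn (i + 1) = -sgn i := by
  unfold sgn
  by_cases h : Even i
  · rw [if_pos h, if_neg]
    · norm_num
    · rw [Int.even_add_one]
      exact fun h' => h' h
  · rw [if_neg h, if_pos]
    rw [Int.even_add_one]
    exact h

lemma sgn_add_even (i a : ℤ) : sgn (i + 2 * a) = sgn i := by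
  unfold sgn
  have : Even (i + 2 * a) ↔ Even i := by
    rw [Int.even_add]
    exact ⟨fun h => h.2 (even_two_mul a), fun h => ⟨fun _ => even_two_mul a, fun _ => h⟩⟩
  simp only [this]

lemma supp_mul {f : ℤ → ℤ} (hf : f.support.Finite) : (fun i => sgn i * f i).support.Finite :=
  hf.subset fun i hi => by
    rw [Function.mem_support] at hi ⊢
    exact right_ne_zero_of_mul hi

lemma supp_shift {f : ℤ → ℤ} (hf : f.support.Finite) (a : ℤ) :
    (fun i => f (i + a)).support.Finite := by
  have h := hf.preimage (f := fun i => i + a) (add_left_injective a).injOn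
  exact h.subset fun i hi => hi

lemma finsum_shift (f : ℤ → ℤ) (a : ℤ) :
    ∑ᶠ i, sgn i * f (i + 2 * a) = ∑ᶠ i, sgn i * f i := by
  rw [← finsum_comp_equiv (Equiv.addRight (2 * a)) (f := fun i => sgn i * f i)]
  refine finsum_congr fun i => ?_
  change _ = sgn (i + 2 * a) * f (i + 2 * a)
  rw [sgn_add_even]

/-- The sum with signs of the ranks of an exact sequence. -/
lemma sum_exact {x z u δ : ℤ → ℤ} (hz : z.support.Finite) (hu : u.support.Finite)
    (hδ : δ.support.Finite) (h : ∀ i, x (i + 1) = z (i + 1) + u (i + 1) - δ (i + 1) - δ i) :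
    ∑ᶠ i, sgn i * x i = ∑ᶠ i, sgn i * z i + ∑ᶠ i, sgn i * u i := by
  have hδ1 : (fun i => δ (i - 1)).support.Finite := supp_shift hδ (-1)
  have h1 : ∀ i, sgn i * x i =
      (sgn i * z i + sgn i * u i) - (sgn i * δ i + sgn i * δ (i - 1)) := by
    intro i
    have h2 := h (i - 1)
    rw [sub_add_cancel] at h2
    rw [h2]
    ring
  have h3 : ∑ᶠ i, (sgn i * δ i + sgn i * δ (i - 1)) = 0 := by
    rw [finsum_add_distrib (supp_mul hδ) (supp_mul hδ1)]
    have h4 : ∑ᶠ i, sgn i * δ (i - 1) = -∑ᶠ i, sgn i * δ i := by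
      rw [← finsum_comp_equiv (Equiv.addRight 1) (f := fun i => sgn i * δ (i - 1)),
        ← finsum_neg_distrib]
      refine finsum_congr fun i => ?_
      change sgn (i + 1) * δ (i + 1 - 1) = _
      rw [sgn_succ, add_sub_cancel_right]
      ring
    rw [h4, add_neg_cancel]
  rw [finsum_congr h1, finsum_sub_distrib, h3, sub_zero, finsum_add_distrib (supp_mul hz)
    (supp_mul hu)]
  · exact ((supp_mul hz).union (supp_mul hu)).subset (Function.support_add _ _)
  · exact ((supp_mul hδ).union (supp_mul hδ1)).subset (Function.support_add _ _)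

end Sums

section Lin

variable {A B C : Type} [AddCommGroup A] [Module ℚ A] [AddCommGroup B] [Module ℚ B]
  [AddCommGroup C] [Module ℚ C] {f : A →ₗ[ℚ] B} {g : B →ₗ[ℚ] C}

lemma finite_mid (h : Function.Exact f g) (hA : Module.Finite ℚ A) (hC : Module.Finite ℚ C) :
    Module.Finite ℚ B := by
  have h1 : LinearMap.ker g = LinearMap.range f := h.linearMap_ker_eq
  have h2 : Module.Finite ℚ (LinearMap.ker g) := by
    rw [h1]
    infer_instance
  have h3 : Module.Finite ℚ (B ⧸ LinearMap.ker g) :=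
    Module.Finite.equiv (g.quotKerEquivRange).symm
  exact Module.Finite.of_submodule_quotient (LinearMap.ker g)

lemma subsingleton_mid (h : Function.Exact f g) (hA : Subsingleton A) (hC : Subsingleton C) :
    Subsingleton B := by
  refine ⟨fun b b' => ?_⟩
  have e : ∀ b : B, b = 0 := by
    intro b
    obtain ⟨a, rfl⟩ := (h b).1 (Subsingleton.elim _ _)
    rw [Subsingleton.elim a 0, map_zero]
  rw [e b, e b']

lemma finrank_mid (h : Function.Exact f g) [Module.Finite ℚ B] :
    (finrank ℚ B : ℤ) = finrank ℚ (LinearMap.range f) + finrank ℚ (LinearMap.range g) := by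
  have h1 : LinearMap.ker g = LinearMap.range f := h.linearMap_ker_eq
  have h2 := g.finrank_range_add_finrank_ker
  rw [h1] at h2
  omega

end Lin

section Add

open Pool.Agent.W495.FM

variable {A B C : Type} [AddCommGroup A] [Module ℚ A] [AddCommGroup B] [Module ℚ B]
  [AddCommGroup C] [Module ℚ C]

/-- Additive maps between rational vector spaces are linear. -/
lemma exists_linear {f : A → B} (h : IsAdd f) : ∃ f' : A →ₗ[ℚ] B, f = f' :=
  ⟨(AddMonoidHom.mk' f h).toRatLinearMap, rfl⟩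

end Add

variable {V : Type} {A : Schemes V}

namespace Schemes

/-- The localisation sequence with linear maps. -/
lemma IsTriple.linear {Z X U : V} (h : A.IsTriple Z X U) (n : ℤ) :
    ∃ (a : ∀ i, A.M Z i n →ₗ[ℚ] A.M X i n) (b : ∀ i, A.M X i n →ₗ[ℚ] A.M U i n)
    (d : ∀ i, A.M U (i + 1) n →ₗ[ℚ] A.M Z i n),
    ∀ i, Function.Exact (a i) (b i) ∧ Function.Exact (b (i + 1)) (d i) ∧
      Function.Exact (d i) (a i) := by
  obtain ⟨a, b, d, he⟩ := h.exact n
  have ha : ∀ i, ∃ f' : A.M Z i n →ₗ[ℚ] A.M X i n, a i = f' := fun i =>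
    exists_linear (he i).1.1
  have hb : ∀ i, ∃ f' : A.M X i n →ₗ[ℚ] A.M U i n, b i = f' := by
    intro i
    obtain ⟨i, rfl⟩ : ∃ j, i = j + 1 := ⟨i - 1, by ring⟩
    exact exists_linear (he i).2.1.1
  have hd : ∀ i, ∃ f' : A.M U (i + 1) n →ₗ[ℚ] A.M Z i n, d i = f' := fun i =>
    exists_linear (he i).2.2.1
  choose a' ha' using ha
  choose b' hb' using hb
  choose d' hd' using hd
  refine ⟨a', b', d', fun i => ?_⟩
  rw [← ha' i, ← hb' i, ← hb' (i + 1), ← hd' i]
  exact ⟨(he i).1.2, (he i).2.1.2, (he i).2.2.2⟩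

lemma supp_fin {X : V} {n : ℤ} (h : A.IsFin X n) :
    (fun i => (finrank ℚ (A.M X i n) : ℤ)).support.Finite := by
  refine h.2.subset fun i hi => ?_
  rw [Function.mem_support] at hi
  by_contra hne
  have h1 : Subsingleton (A.M X i n) := not_nontrivial_iff_subsingleton.1 hne
  exact hi (by rw [Module.finrank_zero_of_subsingleton]; rfl)

lemma fin_total {Z X U : V} {n : ℤ} (h : A.IsTriple Z X U) (hZ : A.IsFin Z n)
    (hU : A.IsFin U n) : A.IsFin X n := by
  obtain ⟨a, b, d, he⟩ := h.linear n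
  refine ⟨fun i => finite_mid (he i).1 (hZ.1 i) (hU.1 i), (hZ.2.union hU.2).subset ?_⟩
  intro i hi
  by_contra hne
  rw [Set.mem_union, not_or] at hne
  have h1 := subsingleton_mid (he i).1 (not_nontrivial_iff_subsingleton.1 hne.1)
    (not_nontrivial_iff_subsingleton.1 hne.2)
  exact (not_nontrivial_iff_subsingleton.2 h1) hi

lemma fin_closed {Z X U : V} {n : ℤ} (h : A.IsTriple Z X U) (hX : A.IsFin X n)
    (hU : A.IsFin U n) : A.IsFin Z n := by
  obtain ⟨a, b, d, he⟩ := h.linear n
  refine ⟨fun i => finite_mid (he i).2.2 (hU.1 (i + 1)) (hX.1 i),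
    ((hU.2.preimage (f := fun i => i + 1) (add_left_injective 1).injOn).union hX.2).subset ?_⟩
  intro i hi
  by_contra hne
  rw [Set.mem_union, not_or] at hne
  have h1 := subsingleton_mid (he i).2.2 (not_nontrivial_iff_subsingleton.1 hne.1)
    (not_nontrivial_iff_subsingleton.1 hne.2)
  exact (not_nontrivial_iff_subsingleton.2 h1) hi

lemma fin_opened {Z X U : V} {n : ℤ} (h : A.IsTriple Z X U) (hZ : A.IsFin Z n)
    (hX : A.IsFin X n) : A.IsFin U n := by
  obtain ⟨a, b, d, he⟩ := h.linear n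
  have hs : ∀ i : ℤ, ∃ j : ℤ, i = j + 1 := fun i => ⟨i - 1, by ring⟩
  refine ⟨fun i => ?_, ((hZ.2.preimage (f := fun i => i - 1)
    (sub_left_injective).injOn).union hX.2).subset ?_⟩
  · obtain ⟨i, rfl⟩ := hs i
    exact finite_mid (he i).2.1 (hX.1 (i + 1)) (hZ.1 i)
  · intro i hi
    by_contra hne
    rw [Set.mem_union, not_or] at hne
    obtain ⟨i, rfl⟩ := hs i
    have h0 : ¬ Nontrivial (A.M Z i n) := by
      intro h'
      apply hne.1
      change Nontrivial (A.M Z (i + 1 - 1) n)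
      rw [add_sub_cancel_right]
      exact h'
    have h1 := subsingleton_mid (he i).2.1 (not_nontrivial_iff_subsingleton.1 hne.2)
      (not_nontrivial_iff_subsingleton.1 h0)
    exact (not_nontrivial_iff_subsingleton.2 h1) hi

/-- The Euler characteristics are additive. -/
lemma chi_triple {Z X U : V} {n : ℤ} (h : A.IsTriple Z X U) (hZ : A.IsFin Z n)
    (hU : A.IsFin U n) : A.chi X n = A.chi Z n + A.chi U n := by
  have hX := fin_total h hZ hU
  obtain ⟨a, b, d, he⟩ := h.linear n
  unfold chi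
  refine sum_exact (δ := fun i => (finrank ℚ (LinearMap.range (d i)) : ℤ)) (supp_fin hZ)
    (supp_fin hU) ?_ ?_
  · refine (supp_fin hZ).subset fun i hi => ?_
    rw [Function.mem_support] at hi ⊢
    intro h0
    have := hZ.1 i
    have h1 : finrank ℚ (LinearMap.range (d i)) ≤ finrank ℚ (A.M Z i n) := Submodule.finrank_le _
    have h2 : (finrank ℚ (A.M Z i n) : ℤ) = 0 := h0
    apply hi
    have h3 : finrank ℚ (A.M Z i n) = 0 := by exact_mod_cast h2
    rw [h3] at h1
    rw [Nat.le_zero.1 h1]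
    rfl
  · intro i
    have := hX.1 (i + 1)
    have := hZ.1 (i + 1)
    have := hU.1 (i + 1)
    have := hZ.1 i
    have h1 := finrank_mid (he (i + 1)).1
    have h2 := finrank_mid (he (i + 1)).2.2
    have h3 := finrank_mid (he i).2.1
    change (finrank ℚ (A.M X (i + 1) n) : ℤ) = finrank ℚ (A.M Z (i + 1) n) +
      finrank ℚ (A.M U (i + 1) n) - finrank ℚ (LinearMap.range (d (i + 1))) -
      finrank ℚ (LinearMap.range (d i))
    rw [h1, h2, h3]
    ring

lemma IsRelation.linear {I J : Type} [Fintype I] [Fintype J] {X : V} {k : ℕ} {W : I → V}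
    {b : I → ℤ} {Y : J → V} {a : J → ℤ} (h : A.IsRelation X k W b Y a) (i n : ℤ) :
    Nonempty (((Fin k → A.M X i n) × ∀ l, A.M (W l) (i + 2 * b l) (n + b l)) ≃ₗ[ℚ]
      ∀ l, A.M (Y l) (i + 2 * a l) (n + a l)) := by
  obtain ⟨e⟩ := h.iso i n
  exact ⟨{ e with map_smul' := fun q x => map_rat_smul e.toAddMonoidHom q x }⟩

lemma fin_relation {I J : Type} [Fintype I] [Fintype J] {X : V} {k : ℕ} {W : I → V} {b : I → ℤ}
    {Y : J → V} {a : J → ℤ} (hk : 0 < k) (h : A.IsRelation X k W b Y a)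
    (hY : ∀ l n, A.IsFin (Y l) n) (n : ℤ) : A.IsFin X n := by
  constructor
  · intro i
    obtain ⟨e⟩ := h.linear i n
    have := fun l => (hY l (n + a l)).1 (i + 2 * a l)
    have : Module.Finite ℚ ((Fin k → A.M X i n) × ∀ l, A.M (W l) (i + 2 * b l) (n + b l)) :=
      Module.Finite.equiv e.symm
    let g : ((Fin k → A.M X i n) × ∀ l, A.M (W l) (i + 2 * b l) (n + b l)) →ₗ[ℚ] A.M X i n :=
      (LinearMap.proj (⟨0, hk⟩ : Fin k)).comp (LinearMap.fst ℚ _ _)
    exact Module.Finite.of_surjective g fun x => ⟨(fun _ => x, 0), rfl⟩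
  · refine (Set.finite_iUnion fun l => ((hY l (n + a l)).2.preimage
      (f := fun i => i + 2 * a l) (add_left_injective (2 * a l)).injOn)).subset ?_
    intro i hi
    by_contra hne
    rw [Set.mem_iUnion, not_exists] at hne
    obtain ⟨e⟩ := h.linear i n
    have : ∀ l, Subsingleton (A.M (Y l) (i + 2 * a l) (n + a l)) := fun l =>
      not_nontrivial_iff_subsingleton.1 (hne l)
    have h1 := e.toEquiv.subsingleton
    refine (not_nontrivial_iff_subsingleton.2 ?_) hi
    refine ⟨fun x y => ?_⟩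
    have h2 : ((fun _ : Fin k => x, 0) : (Fin k → A.M X i n) × ∀ l, A.M (W l) (i + 2 * b l)
        (n + b l)) = (fun _ => y, 0) := Subsingleton.elim _ _
    exact congrFun (congrArg Prod.fst h2) ⟨0, hk⟩

lemma chi_relation {I J : Type} [Fintype I] [Fintype J] {X : V} {k : ℕ} {W : I → V} {b : I → ℤ}
    {Y : J → V} {a : J → ℤ} (hk : 0 < k) (h : A.IsRelation X k W b Y a)
    (hW : ∀ l n, A.IsFin (W l) n) (hY : ∀ l n, A.IsFin (Y l) n) (n : ℤ) :
    (k : ℤ) * A.chi X n + ∑ l, A.chi (W l) (n + b l) = ∑ l, A.chi (Y l) (n + a l) := by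
  have hX := fin_relation hk h hY n
  have h1 : ∀ i, (k : ℤ) * (finrank ℚ (A.M X i n) : ℤ) +
      ∑ l, (finrank ℚ (A.M (W l) (i + 2 * b l) (n + b l)) : ℤ) =
      ∑ l, (finrank ℚ (A.M (Y l) (i + 2 * a l) (n + a l)) : ℤ) := by
    intro i
    obtain ⟨e⟩ := h.linear i n
    have := hX.1 i
    have := fun l => (hY l (n + a l)).1 (i + 2 * a l)
    have := fun l => (hW l (n + b l)).1 (i + 2 * b l)
    have h2 := e.finrank_eq
    rw [Module.finrank_prod, Module.finrank_pi_fintype, Module.finrank_pi_fintype,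
      Module.finrank_pi_fintype, Finset.sum_const, Finset.card_univ, Fintype.card_fin,
      smul_eq_mul] at h2
    exact_mod_cast h2
  have h3 : ∀ (Z : V) (c : ℤ), A.chi Z (n + c) =
      ∑ᶠ i : ℤ, sgn i * (finrank ℚ (A.M Z (i + 2 * c) (n + c)) : ℤ) := fun Z c =>
    (finsum_shift (fun i => (finrank ℚ (A.M Z i (n + c)) : ℤ)) c).symm
  have h4 : ∀ {L : Type} [Fintype L] (Z : L → V) (c : L → ℤ), (∀ l n, A.IsFin (Z l) n) →
      ∑ l, A.chi (Z l) (n + c l) =
      ∑ᶠ i : ℤ, sgn i * ∑ l, (finrank ℚ (A.M (Z l) (i + 2 * c l) (n + c l)) : ℤ) := by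
    intro L _ Z c hZ
    simp only [Finset.mul_sum]
    rw [finsum_sum_comm]
    · exact Finset.sum_congr rfl fun l _ => h3 _ _
    · intro l _
      exact supp_mul (supp_shift (supp_fin (hZ l (n + c l))) (2 * c l))
  rw [h4 W b hW, h4 Y a hY]
  have h5 : (k : ℤ) * A.chi X n = ∑ᶠ i : ℤ, sgn i * ((k : ℤ) * (finrank ℚ (A.M X i n) : ℤ)) := by
    unfold chi
    rw [mul_finsum]
    exact finsum_congr fun i => by ring
  rw [h5, ← finsum_add_distrib]
  · refine finsum_congr fun i => ?_
    rw [← mul_add, h1]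
  · refine supp_mul ((supp_fin hX).subset fun i hi => ?_)
    rw [Function.mem_support] at hi ⊢
    exact right_ne_zero_of_mul hi
  · refine supp_mul (Set.Finite.subset (Set.finite_iUnion fun l =>
      supp_shift (supp_fin (hW l (n + b l))) (2 * b l)) fun i hi => ?_)
    rw [Function.mem_support] at hi
    obtain ⟨l, -, hl⟩ := Finset.exists_ne_zero_of_sum_ne_zero hi
    exact Set.mem_iUnion.2 ⟨l, hl⟩

end Schemes

end Pool.Agent.Zk51.SZ
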