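import Pool.Agent.Zk51.BF.Class
import Mathlib.Analysis.Meromorphic.Order
import Mathlib.LinearAlgebra.Eigenspace.Basic

/-!
# Zeta functions and motivic homology of schemes of finite type over the integers: definitions
-/

set_option autoImplicit false

open Pool.Agent.W495.FM Pool.Agent.Zk51.BF

namespace Pool.Agent.Zk51.SZ

/-- Data on the separated schemes `X : V` of finite type over `ℤ`: the type `pts X` of the closed
points, the number `N X x` of elements of the residue field of a closed point `x`, and the
motivic (Borel-Moore) homology groups `M X i n = H_i^M(X, ℚ(n)) = CH_n(X, i - 2 n) ⊗ ℚ`. If `X` is regular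
of dimension `d` then this is the group `H^(2 d - i)(X, ℚ(d - n))`. -/
structure Schemes (V : Type) where
  pts : V → Type
  N : ∀ X, pts X → ℕ
  M : V → ℤ → ℤ → Type
  [grp : ∀ X i n, AddCommGroup (M X i n)]
  [mod : ∀ X i n, Module ℚ (M X i n)]

attribute [instance] Schemes.grp Schemes.mod

/-- The sign `(-1)^(i+1)`. -/
def sgn (i : ℤ) : ℤ := if Even i then -1 else 1

/-- The sequence `f`, `g` is exact, and `f` is additive. -/
def IsEx {A B C : Type} [AddCommGroup A] [AddCommGroup B] [AddCommGroup C] (f : A → B)
    (g : B → C) : Prop := IsAdd f ∧ Function.Exact f g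

variable {V : Type}

namespace Schemes

variable (A : Schemes V)

/-- The zeta function of `X`: the Euler product over the closed points. -/
noncomputable def zeta (X : V) (s : ℂ) : ℂ := ∏' x : A.pts X, (1 - (A.N X x : ℂ) ^ (-s))⁻¹

/-- Residue fields have at least two elements, and the Euler product converges absolutely for all `s`
with large real part. -/
structure IsSchemes : Prop where
  two_le : ∀ X x, 2 ≤ A.N X x
  conv : ∀ X, ∃ c : ℝ, Summable fun x : A.pts X => (A.N X x : ℝ) ^ (-c)

/-- The groups `H_i^M(X, ℚ(n))` are finite-dimensional for all `i`, and zero for all but finitely many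
`i`. -/
def IsFin (X : V) (n : ℤ) : Prop :=
  (∀ i, Module.Finite ℚ (A.M X i n)) ∧ {i : ℤ | Nontrivial (A.M X i n)}.Finite

/-- The sum of the numbers `(-1)^(i+1) dim H_i^M(X, ℚ(n))`. -/
noncomputable def chi (X : V) (n : ℤ) : ℤ :=
  ∑ᶠ i : ℤ, sgn i * (Module.finrank ℚ (A.M X i n) : ℤ)

/-- `f` is a meromorphic continuation of the zeta function of `X` to the connected open set `D`, which
contains the point `n` and a right half plane. -/
structure IsCont (X : V) (n : ℤ) (D : Set ℂ) (f : ℂ → ℂ) : Prop where
  isOpen : IsOpen D
  conn : IsPreconnected D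
  mem : (n : ℂ) ∈ D
  mero : MeromorphicOn f D
  zeta : ∃ c : ℝ, ∀ s : ℂ, c < s.re → s ∈ D ∧ f s = A.zeta X s

/-- Soulé's conjecture for `X` at the integer `n`: if the groups `H_i^M(X, ℚ(n))` satisfy the conditions
`IsFin`, and the zeta function has a meromorphic continuation to a neighbourhood of `n`, then its order
at `n` is the sum of the numbers `(-1)^(i+1) dim H_i^M(X, ℚ(n))`. -/
def Soule (X : V) (n : ℤ) : Prop :=
  A.IsFin X n → ∀ D f, A.IsCont X n D f →
    meromorphicOrderAt f (n : ℂ) = ((A.chi X n : ℤ) : WithTop ℤ)

/-- The zeta function of `X` has a meromorphic continuation to the complex plane, with the order `e n` at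
the integer `n`. -/
def HasOrders (X : V) (e : ℤ → ℤ) : Prop :=
  ∃ f : ℂ → ℂ, (∀ s, MeromorphicAt f s) ∧ (∃ c : ℝ, ∀ s : ℂ, c < s.re → f s = A.zeta X s) ∧
    ∀ n : ℤ, meromorphicOrderAt f (n : ℂ) = ((e n : ℤ) : WithTop ℤ)

/-- A power of the zeta function of `X` has a meromorphic continuation to the complex plane. -/
def HasMeroPower (X : V) : Prop :=
  ∃ (k : ℕ) (F : ℂ → ℂ), 0 < k ∧ (∀ s, MeromorphicAt F s) ∧
    ∃ c : ℝ, ∀ s : ℂ, c < s.re → F s = A.zeta X s ^ k

/-- `Z` is a closed subscheme of `X` with complement `U`: the closed points of `X` are those of `Z` and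
those of `U`, and the motivic homology groups form long exact localisation sequences. -/
structure IsTriple (Z X U : V) : Prop where
  pts : ∃ e : A.pts Z ⊕ A.pts U ≃ A.pts X,
    (∀ z, A.N X (e (Sum.inl z)) = A.N Z z) ∧ ∀ u, A.N X (e (Sum.inr u)) = A.N U u
  exact : ∀ n : ℤ, ∃ (a : ∀ i, A.M Z i n → A.M X i n) (b : ∀ i, A.M X i n → A.M U i n)
    (d : ∀ i, A.M U (i + 1) n → A.M Z i n),
    ∀ i, IsEx (a i) (b i) ∧ IsEx (b (i + 1)) (d i) ∧ IsEx (d i) (a i)

/-- A relation between motives: the sum of `k` copies of the motive of `X` and of the motives of the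
`W l` twisted `b l` times is isomorphic to the sum of the motives of the `Y l` twisted `a l` times. So the
homology groups are isomorphic, and the zeta functions satisfy the same relation. -/
structure IsRelation {I J : Type} [Fintype I] [Fintype J] (X : V) (k : ℕ) (W : I → V) (b : I → ℤ)
    (Y : J → V) (a : J → ℤ) : Prop where
  iso : ∀ i n : ℤ, Nonempty (((Fin k → A.M X i n) × ∀ l, A.M (W l) (i + 2 * b l) (n + b l)) ≃+
    ∀ l, A.M (Y l) (i + 2 * a l) (n + a l))
  zeta : ∃ c : ℝ, ∀ s : ℂ, c < s.re →
    A.zeta X s ^ k * ∏ l, A.zeta (W l) (s + b l) = ∏ l, A.zeta (Y l) (s + a l)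

/-- The smallest class of schemes that contains those with the property `S`, that contains all of a
closed subscheme `Z` of `X`, `X` and the complement `U` if it contains two of them, and that
contains `X` if a relation expresses a multiple of the motive of `X` by twists of motives of
members. -/
inductive Generated (S : V → Prop) : V → Prop
  | base (X : V) (h : S X) : Generated S X
  | closed (Z X U : V) (h : A.IsTriple Z X U) (hX : Generated S X) (hU : Generated S U) :
      Generated S Z
  | total (Z X U : V) (h : A.IsTriple Z X U) (hZ : Generated S Z) (hU : Generated S U) :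
      Generated S X
  | opened (Z X U : V) (h : A.IsTriple Z X U) (hZ : Generated S Z) (hX : Generated S X) :
      Generated S U
  | relation {I J : Type} [Fintype I] [Fintype J] (X : V) (k : ℕ) (W : I → V) (b : I → ℤ)
      (Y : J → V) (a : J → ℤ) (hk : 0 < k) (h : A.IsRelation X k W b Y a)
      (hW : ∀ l, Generated S (W l)) (hY : ∀ l, Generated S (Y l)) : Generated S X

/-- The dimensions of the groups `H_i^M(X, ℚ(n))` and the orders of the zeta function at the integers for
the spectrum `X` of the ring of integers of a number field with `r₁` real and `r₂` complex places: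
`H_1^M(X, ℚ(n))` is `K_(1 - 2 n)` for `n ≤ 0` (Dirichlet, Borel). -/
def rk (r₁ r₂ : ℕ) (n : ℤ) : ℕ :=
  if n = 0 then r₁ + r₂ - 1 else if 0 < n then 0 else if Odd n then r₂ else r₁ + r₂

/-- `X` is the spectrum of the ring of integers of a number field: the dimensions of its motivic
homology groups (Dirichlet, Borel), and the meromorphic continuation and the orders of the Dedekind zeta
function at the integers (Hecke). -/
def IsIntegers (X : V) : Prop :=
  ∃ r₁ r₂ : ℕ, 0 < r₁ + r₂ ∧
    (∀ i n, Module.Finite ℚ (A.M X i n) ∧ Module.finrank ℚ (A.M X i n) =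
      if i = 2 ∧ n = 1 then 1 else if i = 1 then rk r₁ r₂ n else 0) ∧
    A.HasOrders X fun n => if n = 1 then -1 else (rk r₁ r₂ n : ℤ)

end Schemes

/-- Data on the schemes of finite type over finite fields of characteristic `p`: they form the type `W`
and are schemes over `ℤ` (`incl`), and `T` is their motivic and `ℓ`-adic homology for a prime `ℓ ≠ p`, with
coefficients in an algebraic closure `Ω` of `ℚ_ℓ`. -/
structure Fibres (V : Type) (p : ℕ) [Fact p.Prime] where
  W : Type
  incl : W → V
  Ω : Type
  [field : Field Ω]
  [closed : IsAlgClosed Ω]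
  [char : CharZero Ω]
  ν : PadicAlgCl p ≃+* ℂ
  T : Homology Ω W

attribute [instance] Fibres.field Fibres.closed Fibres.char

variable {p : ℕ} [Fact p.Prime]

/-- `m` is the multiplicity of the eigenvalue one of the Frobenius on `H_i(Y, ℚ_ℓ(n))`. -/
def IsMult {Ω W : Type} [Field Ω] (T : Homology Ω W) (Y : W) (i n : ℤ) (m : ℕ) : Prop :=
  ∀ φ : Module.End Ω (T.E Y i n), (∀ e, φ e = T.frob Y i n e) →
    Module.finrank Ω (φ.maxGenEigenspace 1) = m

/-- The known properties: the motivic homology is that of schemes over `ℤ`, the `ℓ`-adic homology groups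
are zero in almost all degrees, and (Grothendieck) the zeta function is a rational function of `q^(-s)`,
whose order at the integer `n` is the sum of `(-1)^(i+1)` times the multiplicities of the eigenvalue
one of the Frobenius on the groups `H_i(Y, ℚ_ℓ(n))`. -/
structure Fibres.IsFibres (D : Fibres V p) (A : Schemes V) : Prop where
  hom : IsHomology D.T
  motivic : ∀ Y i n, Nonempty (A.M (D.incl Y) i n ≃+ D.T.M Y i n)
  bounded : ∀ Y n, {i : ℤ | Nontrivial (D.T.E Y i n)}.Finite
  trace : ∀ (Y : D.W) (m : ℤ → ℤ → ℕ), (∀ i n, IsMult D.T Y i n (m i n)) →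
    A.HasOrders (D.incl Y) fun n => ∑ᶠ i : ℤ, sgn i * (m i n : ℤ)

/-- `Y` is a scheme over a finite field in the class which is generated by the abelian varieties in
`IsGoodAbelian` (for instance of dimension at most five, or products of elliptic curves, abelian
surfaces and abelian threefolds of `p`-rank two) and by all schemes which satisfy the conjecture
`TB` of Tate and Beilinson (for instance all curves). -/
def Fibres.IsKnown (D : Fibres V p) (Y : D.W) : Prop :=
  Pool.Agent.W495.FM.Generated D.T (fun Y => IsGoodAbelian p D.ν D.T Y ∨ TB D.T Y) Y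

/-- The schemes which generate our class: spectra of rings of integers of number fields, and the
schemes over finite fields in the class `IsKnown`. -/
def Base (A : Schemes V) (D : ∀ (p : ℕ) [Fact p.Prime], Fibres V p) (X : V) : Prop :=
  A.IsIntegers X ∨ ∃ (p : ℕ) (_ : Fact p.Prime) (Y : (D p).W), X = (D p).incl Y ∧ (D p).IsKnown Y

end Pool.Agent.Zk51.SZ
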