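import Pool.Agent.Zk51.SZ.Zeta
import Pool.Agent.Zk51.BF.ClassProof

/-!
# Schemes over finite fields which satisfy the conjecture of Tate and Beilinson
-/

set_option autoImplicit false
set_option linter.unusedSectionVars false

open Module Filter Topology Pool.Agent.W495.FM

namespace Pool.Agent.Zk51.SZ

section Lin

variable {Ω : Type} [Field Ω] [CharZero Ω] {M E : Type} [AddCommGroup M] [Module ℚ M]
  [AddCommGroup E] [Module Ω E] [FiniteDimensional Ω E]

/-- The dimension of the motivic homology group is the multiplicity of the eigenvalue one. -/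
lemma tb_dim (φ : Module.End Ω E) (ρ : M → E) (hadd : IsAdd ρ)
    (h1 : ∀ e, φ e = e ↔ e ∈ Submodule.span Ω (Set.range ρ))
    (h2 : ∀ (r : ℕ) (x : Fin r → M), LinearIndependent ℚ x → LinearIndependent Ω fun k => ρ (x k))
    (h3 : ∀ e, φ (φ e - e) = φ e - e → φ e = e) :
    Module.Finite ℚ M ∧ finrank ℚ M = finrank Ω (φ.maxGenEigenspace 1) := by
  classical
  let : Algebra ℚ Ω := DivisionRing.toRatAlgebra
  let : Module ℚ E := Module.compHom E (algebraMap ℚ Ω)
  have : IsScalarTower ℚ Ω E := ⟨fun a b e => by
    change (a • b) • e = (algebraMap ℚ Ω a) • (b • e)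
    rw [Algebra.smul_def, mul_smul]⟩
  let ρ' : M →ₗ[ℚ] E := (AddMonoidHom.mk' ρ hadd).toRatLinearMap
  have hfin : Module.Finite ℚ M := by
    have hr : Module.rank ℚ M < ((finrank Ω E + 1 : ℕ) : Cardinal) := by
      by_contra h
      rw [not_lt] at h
      obtain ⟨s, hs, hli⟩ := le_rank_iff_exists_linearIndependent_finset.1 h
      let e := s.equivFinOfCardEq hs
      have h4 := h2 _ (fun k => ((e.symm k : s) : M)) (hli.comp _ e.symm.injective)
      have h5 := h4.fintype_card_le_finrank
      rw [Fintype.card_fin] at h5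
      omega
    exact Module.rank_lt_aleph0_iff.1 (hr.trans (Cardinal.natCast_lt_aleph0))
  refine ⟨hfin, ?_⟩
  let b := Module.finBasis ℚ M
  have hli := h2 _ b b.linearIndependent
  have hspan : Submodule.span Ω (Set.range fun k => ρ (b k)) = Submodule.span Ω (Set.range ρ) := by
    refine le_antisymm (Submodule.span_mono ?_) (Submodule.span_le.2 ?_)
    · rintro _ ⟨k, rfl⟩
      exact ⟨b k, rfl⟩
    · rintro _ ⟨x, rfl⟩
      have e1 : ρ x = ρ' x := rfl
      rw [e1, ← b.sum_repr x, map_sum]
      refine Submodule.sum_mem _ fun k _ => ?_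
      rw [map_smul, ← algebraMap_smul Ω (b.repr x k) (ρ' (b k))]
      exact Submodule.smul_mem _ _ (Submodule.subset_span ⟨k, rfl⟩)
  have heig : φ.maxGenEigenspace 1 = Submodule.span Ω (Set.range ρ) := by
    ext e
    rw [← h1, Module.End.mem_maxGenEigenspace]
    constructor
    · rintro ⟨k, hk⟩
      induction k generalizing e with
      | zero =>
        have : e = 0 := by simpa using hk
        rw [this, map_zero]
      | succ k ih =>
        have h4 : φ (φ e - e) = φ e - e := by
          apply ih
          have h5 : ((φ - (1 : Ω) • 1) ^ (k + 1)) e = ((φ - (1 : Ω) • 1) ^ k) (φ e - e) := by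
            rw [pow_succ, Module.End.mul_apply]
            congr 1
            simp
          rw [← h5]
          exact hk
        exact h3 e h4
    · intro he
      refine ⟨1, ?_⟩
      rw [pow_one]
      simp [he]
  rw [heig, ← hspan, finrank_span_eq_card hli, Fintype.card_fin]

end Lin

end Pool.Agent.Zk51.SZ
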