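import Pool.Agent.Zk51.SZ.Fib

/-!
# The conjecture of Soulé for the class generated by rings of integers and known schemes over finite
# fields
-/

set_option autoImplicit false
set_option linter.unusedSectionVars false

open Module Filter Topology

namespace Pool.Agent.Zk51.SZ

variable {V : Type} {A : Schemes V}

namespace Schemes

/-- The property which is inherited by the class. -/
def Good (A : Schemes V) (X : V) : Prop :=
  (∀ n, A.IsFin X n) ∧ ∃ k : ℕ, 0 < k ∧ A.HasPow X (A.chi X) k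

lemma Good.soule {X : V} (h : A.Good X) (n : ℤ) : A.Soule X n := by
  obtain ⟨-, k, hk, hp⟩ := h
  exact fun _ D f hf => hp.order hk hf

lemma Good.power {X : V} (h : A.Good X) : A.HasMeroPower X := by
  obtain ⟨-, k, hk, F, h1, h2, -⟩ := h
  exact ⟨k, F, hk, h1, h2⟩

lemma common {X Y : V} {e e' : ℤ → ℤ} {k k' : ℕ} (h : A.HasPow X e k) (h' : A.HasPow Y e' k') :
    A.HasPow X e (k * k') ∧ A.HasPow Y e' (k * k') :=
  ⟨h.mul k', by rw [mul_comm]; exact h'.mul k⟩

lemma good_total (hA : A.IsSchemes) {Z X U : V} (h : A.IsTriple Z X U) (hZ : A.Good Z)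
    (hU : A.Good U) : A.Good X := by
  obtain ⟨hZ, k, hk, h1⟩ := hZ
  obtain ⟨hU, k', hk', h2⟩ := hU
  obtain ⟨h3, h4⟩ := common h1 h2
  exact ⟨fun n => fin_total h (hZ n) (hU n), k * k', Nat.mul_pos hk hk',
    hasPow_total hA h h3 h4 fun n => chi_triple h (hZ n) (hU n)⟩

lemma good_closed (hA : A.IsSchemes) {Z X U : V} (h : A.IsTriple Z X U) (hX : A.Good X)
    (hU : A.Good U) : A.Good Z := by
  obtain ⟨hX, k, hk, h1⟩ := hX
  obtain ⟨hU, k', hk', h2⟩ := hU
  obtain ⟨h3, h4⟩ := common h1 h2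
  have hZ := fun n => fin_closed h (hX n) (hU n)
  obtain ⟨b, hb⟩ := zeta_triple hA h
  exact ⟨hZ, k * k', Nat.mul_pos hk hk',
    hasPow_div hA hb h3 h4 fun n => chi_triple h (hZ n) (hU n)⟩

lemma good_opened (hA : A.IsSchemes) {Z X U : V} (h : A.IsTriple Z X U) (hZ : A.Good Z)
    (hX : A.Good X) : A.Good U := by
  obtain ⟨hX, k, hk, h1⟩ := hX
  obtain ⟨hZ, k', hk', h2⟩ := hZ
  obtain ⟨h3, h4⟩ := common h1 h2
  have hU := fun n => fin_opened h (hZ n) (hX n)
  obtain ⟨b, hb⟩ := zeta_triple hA h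
  refine ⟨hU, k * k', Nat.mul_pos hk hk',
    hasPow_div hA (b := b) (fun s hs => ?_) h3 h4 fun n => ?_⟩
  · rw [hb s hs, mul_comm]
  · rw [chi_triple h (hZ n) (hU n), add_comm]

/-- Finitely many half planes. -/
lemma half_all {I : Type} [Fintype I] {P : I → ℂ → Prop}
    (h : ∀ l, ∃ c : ℝ, ∀ s : ℂ, c < s.re → P l s) : ∃ c : ℝ, ∀ s : ℂ, c < s.re → ∀ l, P l s := by
  choose c hc using h
  refine ⟨∑ l, |c l|, fun s hs l => hc l s (lt_of_le_of_lt ?_ hs)⟩
  exact (le_abs_self _).trans (Finset.single_le_sum (f := fun l => |c l|)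
    (fun _ _ => abs_nonneg _) (Finset.mem_univ l))

/-- A common exponent for finitely many schemes, and the product of the zeta functions. -/
lemma good_prod (hA : A.IsSchemes) {L : Type} [Fintype L] (Z : L → V) (c : L → ℤ)
    (hZ : ∀ l, A.Good (Z l)) : ∃ K : ℕ, 0 < K ∧ ∀ j : ℕ, ∃ F : ℂ → ℂ, (∀ s, MeromorphicAt F s) ∧
      (∃ b : ℝ, ∀ s : ℂ, b < s.re → F s = (∏ l, A.zeta (Z l) (s + c l)) ^ (K * j) ∧
        ∏ l, A.zeta (Z l) (s + c l) ≠ 0) ∧
      ∀ n : ℤ, meromorphicOrderAt F (n : ℂ) =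
        (((K * j : ℕ) * ∑ l, A.chi (Z l) (n + c l) : ℤ) : WithTop ℤ) := by
  classical
  choose h0 k hk hp using hZ
  refine ⟨∏ l, k l, Finset.prod_pos fun l _ => hk l, fun j => ?_⟩
  have h1 : ∀ l, A.HasPow (Z l) (A.chi (Z l)) ((∏ l, k l) * j) := by
    intro l
    have h2 := Finset.mul_prod_erase Finset.univ k (Finset.mem_univ l)
    rw [← h2, mul_assoc]
    exact (hp l).mul _
  choose F hF hF2 hF3 using h1
  refine ⟨∏ l, (F l) ∘ (· + (c l : ℂ)), fun s => ?_, ?_, fun n => ?_⟩
  · refine MeromorphicAt.prod fun l _ => ?_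
    exact meromorphicAt_comp_add_const_iff_meromorphicAt.2 (hF l _)
  · have h3 : ∀ l, ∃ b : ℝ, ∀ s : ℂ, b < s.re →
        F l (s + c l) = A.zeta (Z l) (s + c l) ^ ((∏ l, k l) * j) ∧
          A.zeta (Z l) (s + c l) ≠ 0 := by
      intro l
      obtain ⟨b, hb⟩ := hF2 l
      obtain ⟨d, hd⟩ := zeta_ne_zero hA (Z l)
      refine ⟨max b d - c l, fun s hs => ?_⟩
      have e : (s + c l).re = s.re + c l := by simp
      have h4 : max b d < (s + c l).re := by
        rw [e]
        linarith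
      exact ⟨hb _ ((le_max_left _ _).trans_lt h4), hd _ ((le_max_right _ _).trans_lt h4)⟩
    obtain ⟨b, hb⟩ := half_all h3
    refine ⟨b, fun s hs => ⟨?_, Finset.prod_ne_zero_iff.2 fun l _ => (hb s hs l).2⟩⟩
    rw [Finset.prod_apply, ← Finset.prod_pow]
    exact Finset.prod_congr rfl fun l _ => (hb s hs l).1
  · rw [meromorphicOrderAt_prod fun l _ =>
      meromorphicAt_comp_add_const_iff_meromorphicAt.2 (hF l _)]
    have h5 : ∀ l, meromorphicOrderAt ((F l) ∘ (· + (c l : ℂ))) (n : ℂ) =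
        ((((∏ l, k l) * j : ℕ) * A.chi (Z l) (n + c l) : ℤ) : WithTop ℤ) := by
      intro l
      rw [meromorphicOrderAt_comp_add_const_eq_meromorphicOrderAt]
      have e : ((n : ℂ) + (c l : ℂ)) = ((n + c l : ℤ) : ℂ) := by push_cast; rfl
      rw [e, hF3 l]
    rw [Finset.sum_congr rfl fun l _ => h5 l, Finset.mul_sum]
    have h6 : ∀ (s : Finset L) (g : L → ℤ), ∑ l ∈ s, ((g l : ℤ) : WithTop ℤ) =
        ((∑ l ∈ s, g l : ℤ) : WithTop ℤ) := by
      intro s g
      induction s using Finset.induction_on with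
      | empty => rfl
      | insert a s ha ih =>
        rw [Finset.sum_insert ha, Finset.sum_insert ha, ih]
        rfl
    exact h6 _ _

lemma good_relation (hA : A.IsSchemes) {I J : Type} [Fintype I] [Fintype J] {X : V} {k : ℕ}
    {W : I → V} {b : I → ℤ} {Y : J → V} {a : J → ℤ} (hk : 0 < k) (h : A.IsRelation X k W b Y a)
    (hW : ∀ l, A.Good (W l)) (hY : ∀ l, A.Good (Y l)) : A.Good X := by
  have hfin := fin_relation hk h (fun l n => (hY l).1 n)
  have hchi := chi_relation hk h (fun l n => (hW l).1 n) (fun l n => (hY l).1 n)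
  obtain ⟨K, hK, hF⟩ := good_prod hA W b hW
  obtain ⟨K', hK', hF'⟩ := good_prod hA Y a hY
  obtain ⟨F, h1, ⟨c, h2⟩, h3⟩ := hF K'
  obtain ⟨F', h1', ⟨c', h2'⟩, h3'⟩ := hF' K
  obtain ⟨d, hd⟩ := h.zeta
  refine ⟨hfin, k * (K * K'), Nat.mul_pos hk (Nat.mul_pos hK hK'), F' / F,
    fun s => (h1' s).div (h1 s), ⟨max (max c c') d, fun s hs => ?_⟩, fun n => ?_⟩
  · have g1 := h2 s (((le_max_left _ _).trans (le_max_left _ _)).trans_lt hs)
    have g2 := h2' s (((le_max_right _ _).trans (le_max_left _ _)).trans_lt hs)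
    have g3 := hd s ((le_max_right _ _).trans_lt hs)
    have g4 : (∏ l, A.zeta (W l) (s + b l)) ^ (K * K') ≠ 0 := pow_ne_zero _ g1.2
    rw [Pi.div_apply, g1.1, g2.1, ← g3, mul_comm K' K, mul_pow, mul_div_assoc, div_self g4,
      mul_one]
    exact (pow_mul _ _ _).symm
  · rw [meromorphicOrderAt_div (h1' _) (h1 _), h3, h3']
    have e : (((K' * K : ℕ) * ∑ l, A.chi (Y l) (n + a l) : ℤ) : WithTop ℤ) -
        (((K * K' : ℕ) * ∑ l, A.chi (W l) (n + b l) : ℤ) : WithTop ℤ) =
        (((K' * K : ℕ) * ∑ l, A.chi (Y l) (n + a l) -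
          (K * K' : ℕ) * ∑ l, A.chi (W l) (n + b l) : ℤ) : WithTop ℤ) := rfl
    rw [e, ← hchi n]
    congr 1
    push_cast
    ring

lemma fin_of_finrank {X : V} {n : ℤ} (h1 : ∀ i, Module.Finite ℚ (A.M X i n)) {S : Set ℤ}
    (hS : S.Finite) (h2 : ∀ i, i ∉ S → finrank ℚ (A.M X i n) = 0) : A.IsFin X n := by
  refine ⟨h1, hS.subset fun i hi => ?_⟩
  by_contra hne
  have h3 := h2 i hne
  have := h1 i
  rw [Module.finrank_zero_iff] at h3
  exact (not_nontrivial_iff_subsingleton.2 h3) hi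

/-- Rings of integers. -/
lemma good_integers {X : V} (h : A.IsIntegers X) : A.Good X := by
  classical
  obtain ⟨r₁, r₂, -, h1, f, h2, h3, h4⟩ := h
  refine ⟨fun n => fin_of_finrank (fun i => (h1 i n).1) (S := {1, 2}) (Set.toFinite _)
    fun i hi => ?_, 1, one_pos, f, h2, ?_, fun n => ?_⟩
  · rw [(h1 i n).2, if_neg, if_neg]
    · intro h'
      exact hi (by simp [h'])
    · rintro ⟨h', -⟩
      exact hi (by simp [h'])
  · simpa only [pow_one] using h3
  · rw [h4 n]
    have e : A.chi X n = if n = 1 then -1 else (rk r₁ r₂ n : ℤ) := by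
      unfold chi
      rw [finsum_eq_sum_of_support_subset (s := {1, 2})]
      · rw [Finset.sum_pair (by norm_num), (h1 1 n).2, (h1 2 n).2]
        have s1 : sgn 1 = 1 := by
          unfold sgn
          rw [if_neg (by decide)]
        have s2 : sgn 2 = -1 := by
          unfold sgn
          rw [if_pos (by decide)]
        rw [s1, s2]
        by_cases hn : n = 1
        · subst hn
          simp [rk]
        · simp [hn]
      · intro i hi
        rw [Function.mem_support] at hi
        by_contra hne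
        apply hi
        rw [(h1 i n).2, if_neg, if_neg]
        · simp
        · rintro rfl
          exact hne (by simp)
        · rintro ⟨rfl, -⟩
          exact hne (by simp)
    rw [e, Nat.cast_one, one_mul]

end Schemes

open Pool.Agent.W495.FM

/-- Schemes over finite fields. -/
lemma good_fibre {p : ℕ} [Fact p.Prime] {D : Fibres V p} (hD : D.IsFibres A) {Y : D.W}
    (hY : D.IsKnown Y) : A.Good (D.incl Y) := by
  have hT := hD.hom
  have htb : TB D.T Y := by
    refine tb_generated hT (fun X hX => ?_) hY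
    rcases hX with hX | hX
    · exact Pool.Agent.R937.PG.tb_goodP hT
        (Pool.Agent.W495.FM.Generated.base X (Pool.Agent.Zk51.BF.good_of hX))
    · exact hX
  let φ : ∀ i n, Module.End D.Ω (D.T.E Y i n) := fun i n => (hT.lin Y i n).map
  have hφ : ∀ i n e, φ i n e = D.T.frob Y i n e := fun i n e => (hT.lin Y i n).map_apply e
  have hdim : ∀ i n, Module.Finite ℚ (A.M (D.incl Y) i n) ∧
      finrank ℚ (A.M (D.incl Y) i n) = finrank D.Ω ((φ i n).maxGenEigenspace 1) := by
    intro i n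
    have := hT.finite Y i n
    obtain ⟨t1, t2, t3⟩ := htb i n
    obtain ⟨e⟩ := hD.motivic Y i n
    have h1 := tb_dim (φ i n) (D.T.reg Y i n) (hT.add Y i n) (fun e => by rw [hφ]; exact t1 e) t2
      (fun e he => by
        rw [hφ] at he ⊢
        rw [hφ] at he
        exact t3 e he)
    obtain ⟨h2, h3⟩ := h1
    let e' : A.M (D.incl Y) i n ≃ₗ[ℚ] D.T.M Y i n :=
      { e with map_smul' := fun q x => map_rat_smul e.toAddMonoidHom q x }
    exact ⟨Module.Finite.equiv e'.symm, e'.finrank_eq.trans h3⟩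
  obtain ⟨f, h1, h2, h3⟩ := hD.trace Y
    (fun i n => finrank D.Ω ((φ i n).maxGenEigenspace 1)) (fun i n ψ hψ => by
      have e : ψ = φ i n := LinearMap.ext fun e => (hψ e).trans (hφ i n e).symm
      rw [e])
  have hfin : ∀ n, A.IsFin (D.incl Y) n := fun n =>
    Schemes.fin_of_finrank (fun i => (hdim i n).1) (hD.bounded Y n) fun i hi => by
      rw [(hdim i n).2]
      have : Subsingleton (D.T.E Y i n) := not_nontrivial_iff_subsingleton.1 hi
      exact Module.finrank_zero_of_subsingleton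
  refine ⟨hfin, 1, one_pos, f, h1, by simpa only [pow_one] using h2, fun n => ?_⟩
  rw [h3 n, Nat.cast_one, one_mul]
  congr 1
  unfold Schemes.chi
  exact finsum_congr fun i => by rw [(hdim i n).2]

lemma good_generated (hA : A.IsSchemes) {D : ∀ (p : ℕ) [Fact p.Prime], Fibres V p}
    (hD : ∀ (p : ℕ) [Fact p.Prime], (D p).IsFibres A) {X : V}
    (hX : Schemes.Generated A (Base A D) X) : A.Good X := by
  induction hX with
  | base X h =>
    rcases h with h | ⟨p, hp, Y, rfl, hY⟩
    · exact Schemes.good_integers h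
    · exact good_fibre (hD p) hY
  | closed Z X U h _ _ hX hU => exact Schemes.good_closed hA h hX hU
  | total Z X U h _ _ hZ hU => exact Schemes.good_total hA h hZ hU
  | opened Z X U h _ _ hZ hX => exact Schemes.good_opened hA h hZ hX
  | relation X k W b Y a hk h _ _ hW hY => exact Schemes.good_relation hA hk h hW hY

/-- **The invariance of the defect.** -/
theorem defect_eq (hA : A.IsSchemes) {Z X Z' X' U : V} (h : A.IsTriple Z X U)
    (h' : A.IsTriple Z' X' U) (hZ : A.Good Z) (hZ' : A.Good Z') (n : ℤ) :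
    (A.IsFin X n ↔ A.IsFin X' n) ∧
      (A.IsFin X n → ∀ D f f', A.IsCont X n D f → A.IsCont X' n D f' →
        meromorphicOrderAt f (n : ℂ) + ((A.chi X' n : ℤ) : WithTop ℤ) =
          meromorphicOrderAt f' (n : ℂ) + ((A.chi X n : ℤ) : WithTop ℤ)) := by
  have hfin : A.IsFin X n ↔ A.IsFin X' n :=
    ⟨fun hX => Schemes.fin_total h' (hZ'.1 n) (Schemes.fin_opened h (hZ.1 n) hX),
      fun hX => Schemes.fin_total h (hZ.1 n) (Schemes.fin_opened h' (hZ'.1 n) hX)⟩
  refine ⟨hfin, fun hX D f f' hf hf' => ?_⟩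
  have hU := Schemes.fin_opened h (hZ.1 n) hX
  obtain ⟨-, k, hk, p1⟩ := hZ
  obtain ⟨-, k', hk', p2⟩ := hZ'
  obtain ⟨p3, p4⟩ := Schemes.common p1 p2
  have hK : 0 < k * k' := Nat.mul_pos hk hk'
  set K := k * k'
  obtain ⟨F, a1, ⟨c1, a2⟩, a3⟩ := p3
  obtain ⟨F', b1, ⟨c2, b2⟩, b3⟩ := p4
  obtain ⟨c3, g3⟩ := hf.zeta
  obtain ⟨c4, g4⟩ := hf'.zeta
  obtain ⟨c5, g5⟩ := Schemes.zeta_triple hA h
  obtain ⟨c6, g6⟩ := Schemes.zeta_triple hA h'
  have key : meromorphicOrderAt (f ^ K * F') (n : ℂ) = meromorphicOrderAt (f' ^ K * F) (n : ℂ) := by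
    refine order_eq (c := max (max (max c1 c2) (max c3 c4)) (max c5 c6)) hf.conn hf.mem
      (fun s hs => ((hf.mero s hs).pow K).mul (b1 s))
      (fun s hs => ((hf'.mero s hs).pow K).mul (a1 s)) fun s hs => ?_
    have i1 : c1 < s.re := by
      refine lt_of_le_of_lt ?_ hs
      simp
    have i2 : c2 < s.re := by
      refine lt_of_le_of_lt ?_ hs
      simp
    have i3 : c3 < s.re := by
      refine lt_of_le_of_lt ?_ hs
      simp
    have i4 : c4 < s.re := by
      refine lt_of_le_of_lt ?_ hs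
      simp
    have i5 : c5 < s.re := by
      refine lt_of_le_of_lt ?_ hs
      simp
    have i6 : c6 < s.re := by
      refine lt_of_le_of_lt ?_ hs
      simp
    refine ⟨(g3 s i3).1, ?_⟩
    rw [Pi.mul_apply, Pi.mul_apply, Pi.pow_apply, Pi.pow_apply, (g3 s i3).2, (g4 s i4).2, a2 s i1,
      b2 s i2, g5 s i5, g6 s i6, ← mul_pow, ← mul_pow]
    congr 1
    ring
  rw [meromorphicOrderAt_mul ((hf.mero _ hf.mem).pow K) (b1 _),
    meromorphicOrderAt_mul ((hf'.mero _ hf'.mem).pow K) (a1 _),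
    meromorphicOrderAt_pow (hf.mero _ hf.mem), meromorphicOrderAt_pow (hf'.mero _ hf'.mem),
    a3, b3] at key
  have hZf := Schemes.fin_closed h hX hU
  have hZf' := Schemes.fin_closed h' (hfin.1 hX) hU
  rw [Schemes.chi_triple h hZf hU, Schemes.chi_triple h' hZf' hU]
  generalize meromorphicOrderAt f (n : ℂ) = u at key ⊢
  generalize meromorphicOrderAt f' (n : ℂ) = v at key ⊢
  have hK0 : (K : WithTop ℤ) ≠ 0 := by exact_mod_cast hK.ne'
  induction u using WithTop.recTopCoe with
  | top =>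
    induction v using WithTop.recTopCoe with
    | top => rfl
    | coe v =>
      rw [WithTop.mul_top hK0, WithTop.top_add] at key
      exact absurd key WithTop.top_ne_coe
  | coe u =>
    induction v using WithTop.recTopCoe with
    | top =>
      rw [WithTop.mul_top hK0, WithTop.top_add] at key
      exact absurd key WithTop.coe_ne_top
    | coe v =>
      have k1 : (((K : ℤ) * u + K * A.chi Z' n : ℤ) : WithTop ℤ) =
          (((K : ℤ) * v + K * A.chi Z n : ℤ) : WithTop ℤ) := by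
        push_cast
        push_cast at key
        exact key
      have k2 : (K : ℤ) * u + K * A.chi Z' n = K * v + K * A.chi Z n := by exact_mod_cast k1
      have k3 : u + A.chi Z' n = v + A.chi Z n := by
        have hK' : (K : ℤ) ≠ 0 := by exact_mod_cast hK.ne'
        apply mul_left_cancel₀ hK'
        linarith
      have k4 : u + (A.chi Z' n + A.chi U n) = v + (A.chi Z n + A.chi U n) := by linarith
      exact_mod_cast congrArg (fun m : ℤ => (m : WithTop ℤ)) k4

end Pool.Agent.Zk51.SZ
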