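import Pool.Agent.Zk51.SZ.Alg
import Mathlib.Analysis.SpecialFunctions.Log.Summable

/-!
# Euler products and orders of meromorphic functions
-/

set_option autoImplicit false
set_option linter.unusedSectionVars false

open Module Filter Topology

namespace Pool.Agent.Zk51.SZ

variable {V : Type} {A : Schemes V}

section Euler

variable {ι : Type} {N : ι → ℕ}

/-- The terms of the Euler product. -/
lemma euler_aux (h2 : ∀ x, 2 ≤ N x) {c : ℝ} (hc : Summable fun x => (N x : ℝ) ^ (-c)) {s : ℂ}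
    (hs : c < s.re) (h1 : 1 < s.re) :
    (∀ x, (1 - (N x : ℂ) ^ (-s))⁻¹ ≠ 0) ∧
      ∃ g : ι → ℂ, Summable g ∧ ∀ x, (1 - (N x : ℂ) ^ (-s))⁻¹ = 1 + g x := by
  have hn : ∀ x, ‖(N x : ℂ) ^ (-s)‖ = (N x : ℝ) ^ (-s.re) := by
    intro x
    rw [Complex.norm_natCast_cpow_of_pos (by have := h2 x; omega), Complex.neg_re]
  have hle : ∀ x, ‖(N x : ℂ) ^ (-s)‖ ≤ (N x : ℝ) ^ (-c) := by
    intro x
    rw [hn]
    exact Real.rpow_le_rpow_of_exponent_le (by exact_mod_cast (one_le_two.trans (h2 x)))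
      (by linarith)
  have hhalf : ∀ x, ‖(N x : ℂ) ^ (-s)‖ ≤ 1 / 2 := by
    intro x
    rw [hn]
    have h3 : (2 : ℝ) ≤ N x := by exact_mod_cast h2 x
    calc (N x : ℝ) ^ (-s.re) ≤ (N x : ℝ) ^ (-1 : ℝ) :=
          Real.rpow_le_rpow_of_exponent_le (by linarith) (by linarith)
      _ = (N x : ℝ)⁻¹ := Real.rpow_neg_one _
      _ ≤ 2⁻¹ := inv_anti₀ (by norm_num) h3
      _ = 1 / 2 := by norm_num
  have hne : ∀ x, (1 : ℂ) - (N x : ℂ) ^ (-s) ≠ 0 := by
    intro x h0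
    have h3 := hhalf x
    rw [← sub_eq_zero.1 h0, norm_one] at h3
    norm_num at h3
  refine ⟨fun x => inv_ne_zero (hne x), fun x => (N x : ℂ) ^ (-s) * (1 - (N x : ℂ) ^ (-s))⁻¹, ?_,
    fun x => ?_⟩
  · refine Summable.of_norm_bounded (g := fun x => 2 * (N x : ℝ) ^ (-c)) (hc.mul_left 2) fun x => ?_
    rw [norm_mul, norm_inv, mul_comm 2]
    refine mul_le_mul (hle x) ?_ (inv_nonneg.2 (norm_nonneg _))
      ((norm_nonneg _).trans (hle x))
    have h3 : (1 : ℝ) / 2 ≤ ‖(1 : ℂ) - (N x : ℂ) ^ (-s)‖ := by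
      have h4 := norm_sub_norm_le (1 : ℂ) ((N x : ℂ) ^ (-s))
      rw [norm_one] at h4
      have := hhalf x
      linarith
    calc ‖(1 : ℂ) - (N x : ℂ) ^ (-s)‖⁻¹ ≤ (1 / 2 : ℝ)⁻¹ := inv_anti₀ (by norm_num) h3
      _ = 2 := by norm_num
  · field_simp [hne x]
    ring

lemma euler_ne_zero (h2 : ∀ x, 2 ≤ N x) {c : ℝ} (hc : Summable fun x => (N x : ℝ) ^ (-c)) {s : ℂ}
    (hs : c < s.re) (h1 : 1 < s.re) : ∏' x, (1 - (N x : ℂ) ^ (-s))⁻¹ ≠ 0 := by
  obtain ⟨h3, g, hg, h4⟩ := euler_aux h2 hc hs h1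
  have h5 : Summable fun x => Complex.log ((1 - (N x : ℂ) ^ (-s))⁻¹) := by
    simp only [h4]
    exact Complex.summable_log_one_add_of_summable hg
  rw [← Complex.cexp_tsum_eq_tprod h3 h5]
  exact Complex.exp_ne_zero _

lemma euler_multipliable (h2 : ∀ x, 2 ≤ N x) {c : ℝ} (hc : Summable fun x => (N x : ℝ) ^ (-c))
    {s : ℂ} (hs : c < s.re) (h1 : 1 < s.re) :
    Multipliable fun x => (1 - (N x : ℂ) ^ (-s))⁻¹ := by
  obtain ⟨h3, g, hg, h4⟩ := euler_aux h2 hc hs h1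
  simp only [h4]
  exact Complex.multipliable_one_add_of_summable hg

end Euler

section Order

/-- Meromorphic functions on a connected set which are equal on a half plane have the same orders. -/
lemma order_eq {f g : ℂ → ℂ} {D : Set ℂ} {z : ℂ} (hD : IsPreconnected D) (hz : z ∈ D)
    (hf : MeromorphicOn f D) (hg : MeromorphicOn g D) {c : ℝ}
    (h : ∀ s : ℂ, c < s.re → s ∈ D ∧ f s = g s) : meromorphicOrderAt f z = meromorphicOrderAt g z := by
  have h1 : MeromorphicOn (f - g) D := hf.sub hg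
  let w : ℂ := ((c + 1 : ℝ) : ℂ)
  have hw : c < w.re := by
    change c < (((c + 1 : ℝ) : ℂ)).re
    rw [Complex.ofReal_re]
    linarith
  have h2 : meromorphicOrderAt (f - g) w = ⊤ := by
    rw [meromorphicOrderAt_eq_top_iff]
    have h3 : ∀ᶠ s in 𝓝 w, c < s.re :=
      (Complex.continuous_re.continuousAt (x := w)).eventually (lt_mem_nhds hw)
    exact (h3.filter_mono nhdsWithin_le_nhds).mono fun s hs => by
      change f s - g s = 0
      rw [(h s hs).2, sub_self]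
  have h4 : meromorphicOrderAt (f - g) z = ⊤ := by
    by_contra h5
    exact h1.meromorphicOrderAt_ne_top_of_isPreconnected hD hz (h w hw).1 h5 h2
  refine meromorphicOrderAt_congr ?_
  rw [meromorphicOrderAt_eq_top_iff] at h4
  exact h4.mono fun s hs => sub_eq_zero.1 hs

lemma mul_cancel_top {k : ℕ} (hk : 0 < k) {a : WithTop ℤ} {b : ℤ}
    (h : (k : WithTop ℤ) * a = ((k * b : ℤ) : WithTop ℤ)) : a = b := by
  induction a using WithTop.recTopCoe with
  | top =>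
    rw [WithTop.mul_top (by exact_mod_cast hk.ne')] at h
    exact absurd h WithTop.top_ne_coe
  | coe a =>
    have h1 : ((k * a : ℤ) : WithTop ℤ) = ((k * b : ℤ) : WithTop ℤ) := by
      rw [← h]
      push_cast
      rfl
    have h2 : (k : ℤ) * a = k * b := by exact_mod_cast h1
    exact congrArg _ (mul_left_cancel₀ (by exact_mod_cast hk.ne') h2)

end Order

namespace Schemes

lemma zeta_ne_zero (hA : A.IsSchemes) (X : V) : ∃ c : ℝ, ∀ s : ℂ, c < s.re → A.zeta X s ≠ 0 := by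
  obtain ⟨c, hc⟩ := hA.conv X
  refine ⟨max c 1, fun s hs => ?_⟩
  exact euler_ne_zero (hA.two_le X) hc ((le_max_left _ _).trans_lt hs)
    ((le_max_right _ _).trans_lt hs)

lemma zeta_triple (hA : A.IsSchemes) {Z X U : V} (h : A.IsTriple Z X U) :
    ∃ c : ℝ, ∀ s : ℂ, c < s.re → A.zeta X s = A.zeta Z s * A.zeta U s := by
  obtain ⟨c, hc⟩ := hA.conv Z
  obtain ⟨c', hc'⟩ := hA.conv U
  obtain ⟨e, he1, he2⟩ := h.pts
  refine ⟨max (max c c') 1, fun s hs => ?_⟩
  have h1 : 1 < s.re := (le_max_right _ _).trans_lt hs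
  have h2 : c < s.re := ((le_max_left _ _).trans (le_max_left _ _)).trans_lt hs
  have h3 : c' < s.re := ((le_max_right _ _).trans (le_max_left _ _)).trans_lt hs
  have hZ := (euler_multipliable (hA.two_le Z) hc h2 h1).hasProd
  have hU := (euler_multipliable (hA.two_le U) hc' h3 h1).hasProd
  have h4 : HasProd (fun x : A.pts Z ⊕ A.pts U => (1 - (A.N X (e x) : ℂ) ^ (-s))⁻¹)
      (A.zeta Z s * A.zeta U s) := by
    refine HasProd.sum ?_ ?_
    · have e1 : (fun x : A.pts Z ⊕ A.pts U => (1 - (A.N X (e x) : ℂ) ^ (-s))⁻¹) ∘ Sum.inl =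
          fun z => (1 - (A.N Z z : ℂ) ^ (-s))⁻¹ := by
        funext z
        change (1 - (A.N X (e (Sum.inl z)) : ℂ) ^ (-s))⁻¹ = _
        rw [he1]
      rw [e1]
      exact hZ
    · have e1 : (fun x : A.pts Z ⊕ A.pts U => (1 - (A.N X (e x) : ℂ) ^ (-s))⁻¹) ∘ Sum.inr =
          fun z => (1 - (A.N U z : ℂ) ^ (-s))⁻¹ := by
        funext z
        change (1 - (A.N X (e (Sum.inr z)) : ℂ) ^ (-s))⁻¹ = _
        rw [he2]
      rw [e1]
      exact hU
  unfold zeta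
  rw [← e.tprod_eq]
  exact h4.tprod_eq

/-- The `k`-th power of the zeta function is meromorphic on the complex plane, with the orders `k e n` at
the integers `n`. -/
def HasPow (A : Schemes V) (X : V) (e : ℤ → ℤ) (k : ℕ) : Prop :=
  ∃ F : ℂ → ℂ, (∀ s, MeromorphicAt F s) ∧ (∃ c : ℝ, ∀ s : ℂ, c < s.re → F s = A.zeta X s ^ k) ∧
    ∀ n : ℤ, meromorphicOrderAt F (n : ℂ) = ((k * e n : ℤ) : WithTop ℤ)

lemma HasPow.mul {X : V} {e : ℤ → ℤ} {k : ℕ} (h : A.HasPow X e k) (j : ℕ) :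
    A.HasPow X e (k * j) := by
  obtain ⟨F, h1, ⟨c, h2⟩, h3⟩ := h
  refine ⟨F ^ j, fun s => (h1 s).pow j, ⟨c, fun s hs => ?_⟩, fun n => ?_⟩
  · rw [Pi.pow_apply, h2 s hs, pow_mul]
  · rw [meromorphicOrderAt_pow (h1 _), h3]
    have : ((k * j : ℕ) : ℤ) * e n = j * (k * e n) := by push_cast; ring
    rw [this]
    push_cast
    rfl

/-- If the zeta function has a continuation to `D` then its order is the expected one. -/
lemma HasPow.order {X : V} {e : ℤ → ℤ} {k : ℕ} (hk : 0 < k) (h : A.HasPow X e k) {n : ℤ}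
    {D : Set ℂ} {f : ℂ → ℂ} (hf : A.IsCont X n D f) :
    meromorphicOrderAt f (n : ℂ) = ((e n : ℤ) : WithTop ℤ) := by
  obtain ⟨F, h1, ⟨c, h2⟩, h3⟩ := h
  obtain ⟨c', h4⟩ := hf.zeta
  have h5 : meromorphicOrderAt (f ^ k) (n : ℂ) = meromorphicOrderAt F (n : ℂ) := by
    refine order_eq (c := max c c') hf.conn hf.mem (hf.mero.pow k) (fun s _ => h1 s) fun s hs => ?_
    have h6 := h4 s ((le_max_right _ _).trans_lt hs)
    refine ⟨h6.1, ?_⟩
    rw [Pi.pow_apply, h6.2, h2 s ((le_max_left _ _).trans_lt hs)]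
  rw [meromorphicOrderAt_pow (hf.mero _ hf.mem), h3] at h5
  exact mul_cancel_top hk h5

lemma hasPow_total (hA : A.IsSchemes) {Z X U : V} (h : A.IsTriple Z X U) {e e' e'' : ℤ → ℤ} {k : ℕ}
    (hZ : A.HasPow Z e k) (hU : A.HasPow U e' k) (he : ∀ n, e'' n = e n + e' n) :
    A.HasPow X e'' k := by
  obtain ⟨F, h1, ⟨c, h2⟩, h3⟩ := hZ
  obtain ⟨F', h1', ⟨c', h2'⟩, h3'⟩ := hU
  obtain ⟨b, hb⟩ := zeta_triple hA h
  refine ⟨F * F', fun s => (h1 s).mul (h1' s), ⟨max (max c c') b, fun s hs => ?_⟩, fun n => ?_⟩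
  · have g1 : c < s.re := ((le_max_left _ _).trans (le_max_left _ _)).trans_lt hs
    have g2 : c' < s.re := ((le_max_right _ _).trans (le_max_left _ _)).trans_lt hs
    have g3 : b < s.re := (le_max_right _ _).trans_lt hs
    rw [Pi.mul_apply, h2 s g1, h2' s g2, hb s g3, mul_pow]
  · rw [meromorphicOrderAt_mul (h1 _) (h1' _), h3, h3', he, mul_add]
    push_cast
    rfl

/-- Quotients. -/
lemma hasPow_div (hA : A.IsSchemes) {X Z U : V} {b : ℝ}
    (hb : ∀ s : ℂ, b < s.re → A.zeta X s = A.zeta Z s * A.zeta U s) {e e' e'' : ℤ → ℤ} {k : ℕ}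
    (hX : A.HasPow X e k) (hU : A.HasPow U e' k) (he : ∀ n, e n = e'' n + e' n) :
    A.HasPow Z e'' k := by
  obtain ⟨F, h1, ⟨c, h2⟩, h3⟩ := hX
  obtain ⟨F', h1', ⟨c', h2'⟩, h3'⟩ := hU
  obtain ⟨d, hd⟩ := zeta_ne_zero hA U
  refine ⟨F / F', fun s => (h1 s).div (h1' s), ⟨max (max c c') (max b d), fun s hs => ?_⟩,
    fun n => ?_⟩
  · have g1 : c < s.re := ((le_max_left _ _).trans (le_max_left _ _)).trans_lt hs
    have g2 : c' < s.re := ((le_max_right _ _).trans (le_max_left _ _)).trans_lt hs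
    have g3 : b < s.re := ((le_max_left _ _).trans (le_max_right _ _)).trans_lt hs
    have g4 : d < s.re := ((le_max_right _ _).trans (le_max_right _ _)).trans_lt hs
    have g5 : A.zeta U s ^ k ≠ 0 := pow_ne_zero _ (hd s g4)
    rw [Pi.div_apply, h2 s g1, h2' s g2, hb s g3, mul_pow, mul_div_assoc, div_self g5, mul_one]
  · rw [meromorphicOrderAt_div (h1 _) (h1' _), h3, h3', he, mul_add]
    have : (((k : ℤ) * e'' n + k * e' n : ℤ) : WithTop ℤ) - ((k * e' n : ℤ) : WithTop ℤ) =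
        (((k : ℤ) * e'' n + k * e' n - k * e' n : ℤ) : WithTop ℤ) := rfl
    rw [this, add_sub_cancel_right]

end Schemes

end Pool.Agent.Zk51.SZ
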